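import Pool.Agent.Q255.IC.Stm

/-!
# Entropy: the finite Gibbs inequality with labels and its measure form
-/

set_option autoImplicit false

namespace Pool.Agent.Q150.IC

open Filter Topology MeasureTheory
open Pool.Agent.Q255.IC

theorem jen : S_JEN := by
  intro Λ S _ _ _ _ r g hr hsum
  obtain ⟨K, hK⟩ : ∃ K : ℝ, K = Fintype.card Λ := ⟨_, rfl⟩
  obtain ⟨c, hc⟩ : ∃ c : ℝ, c = Fintype.card S := ⟨_, rfl⟩
  rw [← hK, ← hc]
  have K0 : 0 < K := by rw [hK]; exact_mod_cast Fintype.card_pos
  have c0 : 0 < c := by rw [hc]; exact_mod_cast Fintype.card_pos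
  obtain ⟨Z, hZ⟩ : ∃ Z : Λ → ℝ, Z = fun l => (∑ s, Real.exp (g l s)) / c := ⟨_, rfl⟩
  have hZl : ∀ l, Z l = (∑ s, Real.exp (g l s)) / c := fun l => by rw [hZ]
  have Z0 : ∀ l, 0 < Z l := fun l => by
    rw [hZl]
    exact div_pos (Finset.sum_pos (fun s _ => Real.exp_pos _) Finset.univ_nonempty) c0
  obtain ⟨P, hP⟩ : ∃ P : S → ℝ, P = fun s => ∑ l, r l s := ⟨_, rfl⟩
  have hPs : ∀ s, P s = ∑ l, r l s := fun s => by rw [hP]
  have hle : ∀ l s, r l s ≤ P s := fun l s => by
    rw [hPs]
    exact Finset.single_le_sum (fun i _ => hr i s) (Finset.mem_univ l)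
  have hterm : ∀ l s, r l s * (g l s - Real.log c - Real.log (Z l) - Real.log (P s)) ≤
      Real.exp (g l s) / (c * Z l) / K - r l s + r l s * Real.log K := by
    intro l s
    rcases (hr l s).eq_or_lt with h0 | h0
    · rw [← h0]
      have := Real.exp_pos (g l s)
      have h1 := Z0 l
      have : 0 < Real.exp (g l s) / (c * Z l) / K := by positivity
      linarith
    · have P0 : 0 < P s := lt_of_lt_of_le h0 (hle l s)
      have h1 := Z0 l
      have he := Real.exp_pos (g l s)
      have e1 : g l s - Real.log c - Real.log (Z l) - Real.log (P s) =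
          Real.log (Real.exp (g l s) / (c * Z l) / P s / K) + Real.log K := by
        rw [Real.log_div (by positivity) K0.ne', Real.log_div (by positivity) P0.ne',
          Real.log_div he.ne' (by positivity), Real.log_mul c0.ne' h1.ne', Real.log_exp]
        ring
      have h2 := Real.log_le_sub_one_of_pos
        (show 0 < Real.exp (g l s) / (c * Z l) / P s / K by positivity)
      have h3 : r l s * (Real.exp (g l s) / (c * Z l) / P s / K) ≤
          Real.exp (g l s) / (c * Z l) / K := by
        have h4 : r l s / P s ≤ 1 := (div_le_one P0).mpr (hle l s)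
        have e2 : r l s * (Real.exp (g l s) / (c * Z l) / P s / K) =
            (r l s / P s) * (Real.exp (g l s) / (c * Z l) / K) := by
          field_simp
        rw [e2]
        exact mul_le_of_le_one_left (by positivity) h4
      rw [e1]
      have h5 := mul_le_mul_of_nonneg_left h2 h0.le
      linarith
  have hS : ∑ l, ∑ s, r l s * (g l s - Real.log c - Real.log (Z l) - Real.log (P s)) ≤
      ∑ l, ∑ s, (Real.exp (g l s) / (c * Z l) / K - r l s + r l s * Real.log K) :=
    Finset.sum_le_sum fun l _ => Finset.sum_le_sum fun s _ => hterm l s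
  have hR : ∑ l, ∑ s, (Real.exp (g l s) / (c * Z l) / K - r l s + r l s * Real.log K) =
      Real.log K := by
    have e1 : ∀ l, ∑ s, (Real.exp (g l s) / (c * Z l) / K - r l s + r l s * Real.log K) =
        1 / K - ∑ s, r l s + (∑ s, r l s) * Real.log K := by
      intro l
      rw [Finset.sum_add_distrib, Finset.sum_sub_distrib, ← Finset.sum_mul]
      congr 2
      rw [← Finset.sum_div, ← Finset.sum_div]
      have h1 := Z0 l
      have h2 : ∑ s, Real.exp (g l s) = c * Z l := by
        rw [hZl]; field_simp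
      rw [h2, div_self (by positivity)]
    rw [Finset.sum_congr rfl fun l _ => e1 l, Finset.sum_add_distrib, Finset.sum_sub_distrib,
      ← Finset.sum_mul, hsum, Finset.sum_const, Finset.card_univ, nsmul_eq_mul, ← hK]
    field_simp
    ring
  rw [hR] at hS
  have hL : ∑ l, ∑ s, r l s * (g l s - Real.log c - Real.log (Z l) - Real.log (P s)) =
      ∑ l, ∑ s, r l s * g l s - Real.log c - ∑ l, (∑ s, r l s) * Real.log (Z l) +
        ∑ s, Real.negMulLog (P s) := by
    have e1 : ∀ l, ∑ s, r l s * (g l s - Real.log c - Real.log (Z l) - Real.log (P s)) =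
        ∑ s, r l s * g l s - (∑ s, r l s) * Real.log c - (∑ s, r l s) * Real.log (Z l) -
          ∑ s, r l s * Real.log (P s) := by
      intro l
      rw [Finset.sum_mul, Finset.sum_mul, ← Finset.sum_sub_distrib, ← Finset.sum_sub_distrib,
        ← Finset.sum_sub_distrib]
      exact Finset.sum_congr rfl fun s _ => by ring
    rw [Finset.sum_congr rfl fun l _ => e1 l, Finset.sum_sub_distrib, Finset.sum_sub_distrib,
      Finset.sum_sub_distrib, ← Finset.sum_mul, hsum, one_mul,
      Finset.sum_comm (f := fun l s => r l s * Real.log (P s))]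
    have e2 : ∑ s, ∑ l, r l s * Real.log (P s) = - ∑ s, Real.negMulLog (P s) := by
      rw [← Finset.sum_neg_distrib]
      refine Finset.sum_congr rfl fun s _ => ?_
      rw [← Finset.sum_mul, ← hPs, Real.negMulLog]
      ring
    rw [e2]
    ring
  rw [hL] at hS
  have e3 : ∑ s, Real.negMulLog (∑ l, r l s) = ∑ s, Real.negMulLog (P s) := by rw [hP]
  have e4 : ∑ l, (∑ s, r l s) * Real.log ((∑ s, Real.exp (g l s)) / c) =
      ∑ l, (∑ s, r l s) * Real.log (Z l) := by rw [hZ]
  rw [e3, e4]
  linarith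

/-- the cylinder of a word -/
def cyl {n : ℕ} (s : Fin n → Bool) : Set (ℕ → Bool) := {ω | ∀ k : Fin n, ω k = s k}

theorem cyl_meas {n : ℕ} (s : Fin n → Bool) : MeasurableSet (cyl s) := by
  have : cyl s = ⋂ k : Fin n, {ω : ℕ → Bool | ω k = s k} := by
    ext ω; simp [cyl]
  rw [this]
  refine MeasurableSet.iInter fun k => ?_
  have h : Measurable (fun ω : ℕ → Bool => ω (k : ℕ)) := measurable_pi_apply _
  exact h (MeasurableSet.singleton (s k))

theorem cyl_mem {n : ℕ} (s : Fin n → Bool) (ω : ℕ → Bool) :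
    ω ∈ cyl s ↔ s = fun k : Fin n => ω k := by
  unfold cyl
  constructor
  · intro h; funext k; exact (h k).symm
  · intro h k; rw [h]

theorem fun_eq {n : ℕ} (F : (Fin n → Bool) → ℝ) (ω : ℕ → Bool) :
    F (fun k : Fin n => ω k) = ∑ s, (cyl s).indicator (fun _ => F s) ω := by
  classical
  rw [Finset.sum_eq_single (fun k : Fin n => ω k)]
  · rw [Set.indicator_of_mem ((cyl_mem _ _).mpr rfl)]
  · intro s _ hs
    exact Set.indicator_of_notMem (fun h => hs ((cyl_mem _ _).mp h)) _
  · intro h; exact absurd (Finset.mem_univ _) h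

theorem int_eq (ν : Measure (ℕ → Bool)) [IsProbabilityMeasure ν] {n : ℕ}
    (F : (Fin n → Bool) → ℝ) (E : Set (ℕ → Bool)) :
    ∫ ω in E, F (fun k : Fin n => ω k) ∂ν = ∑ s, ν.real (cyl s ∩ E) * F s := by
  have h1 : (fun ω : ℕ → Bool => F (fun k : Fin n => ω k)) =
      fun ω => ∑ s, (cyl s).indicator (fun _ => F s) ω := by
    funext ω; exact fun_eq F ω
  rw [h1, integral_finsetSum]
  · refine Finset.sum_congr rfl fun s _ => ?_
    rw [integral_indicator_const _ (cyl_meas s), measureReal_restrict_apply (cyl_meas s),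
      smul_eq_mul]
  · intro s _
    exact (integrable_const _).indicator (cyl_meas s)

theorem sum_cyl (ν : Measure (ℕ → Bool)) [IsProbabilityMeasure ν] (n : ℕ)
    (E : Set (ℕ → Bool)) : ∑ s : Fin n → Bool, ν.real (cyl s ∩ E) = ν.real E := by
  have h := int_eq ν (n := n) (fun _ => 1) E
  simp only [mul_one] at h
  rw [← h]
  simp

theorem ent (hJ : S_JEN) : S_ENT := by
  classical
  intro ν _ L E a B t hE hdis ha ht n
  obtain ⟨U, hU⟩ : ∃ U : Set (ℕ → Bool), U = ⋃ l, E l := ⟨_, rfl⟩
  have hUm : MeasurableSet U := by rw [hU]; exact MeasurableSet.iUnion hE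
  obtain ⟨r, hr⟩ : ∃ r : Option (Fin L) → (Fin n → Bool) → ℝ, r = fun l s =>
      l.elim (ν.real (cyl s ∩ Uᶜ)) (fun l => ν.real (cyl s ∩ E l)) := ⟨_, rfl⟩
  obtain ⟨g, hg⟩ : ∃ g : Option (Fin L) → (Fin n → Bool) → ℝ, g = fun l s =>
      l.elim 0 (fun l => ∑ k : Fin n, -(t * ((if s k then (1 : ℝ) else -1) * a l k))) :=
    ⟨_, rfl⟩
  have hrn : ∀ s, r none s = ν.real (cyl s ∩ Uᶜ) := fun s => by rw [hr]; rfl
  have hrs : ∀ l s, r (some l) s = ν.real (cyl s ∩ E l) := fun l s => by rw [hr]; rfl
  have hgn : ∀ s, g none s = 0 := fun s => by rw [hg]; rfl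
  have hgs : ∀ l s, g (some l) s =
      ∑ k : Fin n, -(t * ((if s k then (1 : ℝ) else -1) * a l k)) := fun l s => by rw [hg]; rfl
  have hP : ∀ s, ∑ l, r l s = ν.real (cyl s) := by
    intro s
    rw [Fintype.sum_option, hrn]
    simp only [hrs]
    have h1 : ∑ l, ν.real (cyl s ∩ E l) = ν.real (cyl s ∩ U) := by
      rw [hU, Set.inter_iUnion, measureReal_iUnion_fintype]
      · intro i j hij
        exact Set.disjoint_of_subset Set.inter_subset_right Set.inter_subset_right (hdis hij)
      · intro i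
        exact (cyl_meas s).inter (hE i)
    rw [h1]
    have h2 := measureReal_inter_add_sdiff (μ := ν) (s := cyl s) hUm
    rw [Set.sdiff_eq] at h2
    linarith
  have hsum : ∑ l, ∑ s, r l s = 1 := by
    rw [Finset.sum_comm]
    simp only [hP]
    have h := sum_cyl ν n Set.univ
    simp only [Set.inter_univ] at h
    rw [h]
    simp
  have hrnn : ∀ l s, 0 ≤ r l s := by
    intro l s
    cases l with
    | none => rw [hrn]; exact measureReal_nonneg
    | some l => rw [hrs]; exact measureReal_nonneg
  have key := hJ (Option (Fin L)) (Fin n → Bool) r g hrnn hsum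
  have hc1 : (Fintype.card (Fin n → Bool) : ℝ) = 2 ^ n := by
    simp
  have hc2 : (Fintype.card (Option (Fin L)) : ℝ) = L + 1 := by
    simp
  rw [hc1, hc2, Real.log_pow] at key
  have hent : ∑ s : Fin n → Bool, Real.negMulLog (∑ l, r l s) = entropy ν n := by
    unfold entropy
    refine Finset.sum_congr rfl fun s _ => ?_
    rw [hP]; rfl
  rw [hent] at key
  have hB0 : 0 ≤ t * B ∨ L = 0 ∨ n = 0 := by
    by_cases hL : L = 0
    · exact Or.inr (Or.inl hL)
    · by_cases hn : n = 0
      · exact Or.inr (Or.inr hn)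
      · left
        have := (abs_nonneg _).trans (ha ⟨0, Nat.pos_of_ne_zero hL⟩ 0)
        positivity
  -- the left hand side
  have hleft : ∑ l, ∑ s, r l s * g l s =
      t * ∑ k ∈ Finset.range n, ∑ l, ∫ ω in E l, -(sg ω k * a l k) ∂ν := by
    rw [Fintype.sum_option]
    have h0 : ∑ s, r none s * g none s = 0 :=
      Finset.sum_eq_zero fun s _ => by rw [hgn, mul_zero]
    rw [h0, zero_add, Finset.sum_comm (s := Finset.range n), Finset.mul_sum]
    refine Finset.sum_congr rfl fun l _ => ?_
    rw [Finset.sum_range, Finset.mul_sum]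
    have h1 : ∀ k : Fin n, ∫ ω in E l, -(sg ω k * a l k) ∂ν =
        ∑ s : Fin n → Bool, ν.real (cyl s ∩ E l) * (-((if s k then (1 : ℝ) else -1) * a l k)) := by
      intro k
      exact int_eq ν (fun s : Fin n → Bool => -((if s k then (1 : ℝ) else -1) * a l k)) (E l)
    simp only [h1, Finset.mul_sum]
    rw [Finset.sum_comm]
    refine Finset.sum_congr rfl fun s _ => ?_
    rw [hrs, hgs, Finset.mul_sum]
    refine Finset.sum_congr rfl fun k _ => ?_
    ring
  rw [hleft] at key
  -- the right hand side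
  have hZ : ∀ l : Fin L, (∑ s : Fin n → Bool, Real.exp (g (some l) s)) / 2 ^ n =
      ∏ k : Fin n, Real.cosh (t * a l k) := by
    intro l
    have h1 : ∀ s : Fin n → Bool, Real.exp (g (some l) s) =
        ∏ k : Fin n, Real.exp (-(t * ((if s k then (1 : ℝ) else -1) * a l k))) := by
      intro s
      rw [hgs, Real.exp_sum]
    simp only [h1]
    rw [← Fintype.prod_sum
      (fun (k : Fin n) (b : Bool) => Real.exp (-(t * ((if b then (1 : ℝ) else -1) * a l k))))]
    have h2 : ((2 : ℝ) ^ n) = ∏ _k : Fin n, (2 : ℝ) := by simp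
    rw [h2, ← Finset.prod_div_distrib]
    refine Finset.prod_congr rfl fun k _ => ?_
    rw [Real.cosh_eq, Fintype.sum_bool]
    simp only [if_true, Bool.false_eq_true, if_false]
    rw [show -(t * (1 * a l k)) = -(t * a l k) by ring,
      show -(t * (-1 * a l k)) = t * a l k by ring, add_comm]
  have hlog : ∀ l : Fin L, Real.log ((∑ s : Fin n → Bool, Real.exp (g (some l) s)) / 2 ^ n) ≤
      n * Real.log (Real.cosh (t * B)) := by
    intro l
    rw [hZ, Real.log_prod fun k _ => (Real.cosh_pos _).ne']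
    have h1 : ∀ k : Fin n, Real.log (Real.cosh (t * a l k)) ≤ Real.log (Real.cosh (t * B)) := by
      intro k
      refine Real.log_le_log (Real.cosh_pos _) ?_
      rw [Real.cosh_le_cosh, abs_mul, abs_mul, abs_of_nonneg ht]
      exact mul_le_mul_of_nonneg_left ((ha l k).trans (le_abs_self B)) ht
    refine (Finset.sum_le_sum fun k _ => h1 k).trans (le_of_eq ?_)
    rw [Finset.sum_const, Finset.card_univ, Fintype.card_fin, nsmul_eq_mul]
  have hright : ∑ l, (∑ s, r l s) * Real.log ((∑ s : Fin n → Bool, Real.exp (g l s)) / 2 ^ n) ≤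
      (∑ l, ν.real (E l)) * (n * Real.log (Real.cosh (t * B))) := by
    rw [Fintype.sum_option]
    have h0 : Real.log ((∑ s : Fin n → Bool, Real.exp (g none s)) / 2 ^ n) = 0 := by
      simp only [hgn, Real.exp_zero]
      simp
    rw [h0, mul_zero, zero_add, Finset.sum_mul]
    refine Finset.sum_le_sum fun l _ => ?_
    have h1 : ∑ s, r (some l) s = ν.real (E l) := by
      simp only [hrs]
      exact sum_cyl ν n (E l)
    rw [h1]
    exact mul_le_mul_of_nonneg_left (hlog l) measureReal_nonneg
  linarith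

end Pool.Agent.Q150.IC
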